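import Pool.Agent.H209R3.Red2

set_option autoImplicit false

namespace Pool.Agent.Results.MP_1b9c20_nt.SchweizerQGeThree

open Pool.Agent.H209R3 Polynomial

/-- For every finite field K with at least 3 elements and all g, Δ in K(T) with Δ ≠ 0, the map
x ↦ Tx + g x^q + Δ x^(q^2) on K(T), q = #K, has at most q^2 preperiodic points. -/
theorem result :
    ∀ (K : Type) [Field K] [Fintype K] (g Δ : RatFunc K), 3 ≤ Fintype.card K → Δ ≠ 0 →
      {x : RatFunc K | ∃ m n : ℕ, m < n ∧
          (fun y : RatFunc K => RatFunc.X * y + g * y ^ Fintype.card K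
              + Δ * y ^ (Fintype.card K ^ 2))^[m] x
            = (fun y : RatFunc K => RatFunc.X * y + g * y ^ Fintype.card K
              + Δ * y ^ (Fintype.card K ^ 2))^[n] x}.encard
        ≤ ((Fintype.card K ^ 2 : ℕ) : ℕ∞) := by
  intro K _ _ g Δ hq hΔ
  by_contra hcon
  obtain ⟨x, t, c, g', δ, hx, hind, hc, hδ, hrel⟩ := stage00 g Δ hΔ hcon
  obtain ⟨p, hchar⟩ := CharP.exists K
  obtain ⟨n, hp, hcard⟩ := FiniteField.card K p
  have hfact : Fact p.Prime := ⟨hp⟩
  have hchar2 : CharP (AlgebraicClosure K) p :=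
    charP_of_injective_algebraMap (algebraMap K (AlgebraicClosure K)).injective p
  rw [hcard] at hq hrel
  exact core p (n : ℕ) hq x hx hind t c g' δ hc hδ hrel

end Pool.Agent.Results.MP_1b9c20_nt.SchweizerQGeThree
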